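import Pool.Agent.Helper80.LR.Spec

/-!
Project LR, module LR-5: Hall condition from sparsity and expansion.
-/

set_option autoImplicit false
open Classical Filter Topology

namespace Pool.Agent.Helper80.LR

theorem h28_card_col {n : ℕ} (H : Finset (Cell n)) (S : Finset (Fin n)) {d : ℝ}
    (h : ∀ v, d ≤ ((H ∩ star v).card : ℝ)) :
    d * S.card ≤ ((H.filter (fun e => e.1 ∈ S)).card : ℝ) := by
  have h1 : (H.filter (fun e => e.1 ∈ S)).card =
      ∑ j ∈ S, ((H.filter (fun e => e.1 ∈ S)).filter (fun e => e.1 = j)).card :=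
    Finset.card_eq_sum_card_fiberwise (f := fun e : Cell n => e.1) (fun e he => by
      simpa using (Finset.mem_filter.1 he).2)
  rw [h1, Nat.cast_sum, mul_comm, ← nsmul_eq_mul, ← Finset.sum_const]
  refine Finset.sum_le_sum fun j hj => ?_
  refine (h (Sum.inl j)).trans (le_of_eq ?_)
  congr 2
  ext e
  simp only [star, Sum.elim_inl, Finset.mem_inter, Finset.mem_filter, Finset.mem_univ, true_and]
  constructor
  · rintro ⟨h2, rfl⟩
    exact ⟨⟨h2, hj⟩, rfl⟩
  · rintro ⟨⟨h2, _⟩, h3⟩
    exact ⟨h2, h3⟩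

theorem h28_card_sym {n : ℕ} (H : Finset (Cell n)) (S : Finset (Fin n)) {d : ℝ}
    (h : ∀ v, d ≤ ((H ∩ star v).card : ℝ)) :
    d * S.card ≤ ((H.filter (fun e => e.2 ∈ S)).card : ℝ) := by
  have h1 : (H.filter (fun e => e.2 ∈ S)).card =
      ∑ j ∈ S, ((H.filter (fun e => e.2 ∈ S)).filter (fun e => e.2 = j)).card :=
    Finset.card_eq_sum_card_fiberwise (f := fun e : Cell n => e.2) (fun e he => by
      simpa using (Finset.mem_filter.1 he).2)
  rw [h1, Nat.cast_sum, mul_comm, ← nsmul_eq_mul, ← Finset.sum_const]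
  refine Finset.sum_le_sum fun j hj => ?_
  refine (h (Sum.inr j)).trans (le_of_eq ?_)
  congr 2
  ext e
  simp only [star, Sum.elim_inr, Finset.mem_inter, Finset.mem_filter, Finset.mem_univ, true_and]
  constructor
  · rintro ⟨h2, rfl⟩
    exact ⟨⟨h2, hj⟩, rfl⟩
  · rintro ⟨⟨h2, _⟩, h3⟩
    exact ⟨h2, h3⟩

/-- LR-5 -/
theorem hall : HallStmt := by
  intro n d a0 G U hn hd ha0 hdeg hsp hla
  let t : Fin n → Finset (Fin n) := fun j => Finset.univ.filter fun s => (j, s) ∈ G \ U
  have ht : ∀ j s, s ∈ t j ↔ (j, s) ∈ G \ U := fun j s => by simp [t]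
  have key : ∀ S : Finset (Fin n), S.card ≤ (S.biUnion t).card := by
    intro S
    by_contra hlt
    push Not at hlt
    set T := S.biUnion t with hT
    have hST : ∀ e ∈ G \ U, e.1 ∈ S → e.2 ∈ T := by
      intro e he h1
      exact Finset.mem_biUnion.2 ⟨e.1, h1, (ht e.1 e.2).2 he⟩
    have hcT : T.card + Tᶜ.card = n := by simpa using Finset.card_add_card_compl T
    have hcS : S.card + Sᶜ.card = n := by simpa using Finset.card_add_card_compl S
    by_cases h1 : (S.card : ℝ) ≤ a0
    · have h2 := (hsp S T hlt h1).1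
      have h3 := h28_card_col (G \ U) S hdeg
      have h4 : (((G \ U).filter (fun e => e.1 ∈ S)).card : ℝ) ≤
          ((G.filter (fun e => e.1 ∈ S ∧ e.2 ∈ T)).card : ℝ) := by
        exact_mod_cast Finset.card_le_card (fun e he => by
          rw [Finset.mem_filter] at he ⊢
          exact ⟨(Finset.mem_sdiff.1 he.1).1, he.2, hST e he.1 he.2⟩)
      linarith
    · by_cases h2 : ((Tᶜ).card : ℝ) ≤ a0
      · have h3 := (hsp Tᶜ Sᶜ (by omega) h2).2
        have h4 := h28_card_sym (G \ U) Tᶜ hdeg
        have h5 : (((G \ U).filter (fun e => e.2 ∈ Tᶜ)).card : ℝ) ≤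
            ((G.filter (fun e => e.1 ∈ Sᶜ ∧ e.2 ∈ Tᶜ)).card : ℝ) := by
          exact_mod_cast Finset.card_le_card (fun e he => by
            rw [Finset.mem_filter] at he ⊢
            refine ⟨(Finset.mem_sdiff.1 he.1).1, ?_, he.2⟩
            rw [Finset.mem_compl]
            intro h6
            exact (Finset.mem_compl.1 he.2) (hST e he.1 h6))
        linarith
      · push Not at h1 h2
        set a := ⌈a0⌉₊ with ha
        have haS : a ≤ S.card := Nat.ceil_le.2 h1.le
        have haT : a ≤ (Tᶜ).card := Nat.ceil_le.2 h2.le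
        have ha2 : 2 * a ≤ n + 1 := by
          rcases le_or_gt a0 0 with h3 | h3
          · have : a = 0 := Nat.ceil_eq_zero.2 h3
            omega
          · have h4 : (a : ℝ) < a0 + 1 := Nat.ceil_lt_add_one h3.le
            have h5 : (2 * a : ℝ) < n + 2 := by
              have : (0 : ℝ) ≤ n := Nat.cast_nonneg n
              linarith
            have h6 : 2 * a < n + 2 := by exact_mod_cast h5
            omega
        obtain ⟨S1, hS1, hS1c⟩ := Finset.exists_subset_card_eq
          (min_le_left S.card (n + 1 - a))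
        have hle : n + 1 - S1.card ≤ (Tᶜ).card := by
          rw [hS1c]
          omega
        obtain ⟨T1, hT1, hT1c⟩ := Finset.exists_subset_card_eq hle
        obtain ⟨e, he, he1, he2⟩ := hla S1 T1 (by rw [hT1c, hS1c]; omega)
          (Nat.ceil_le.1 (by rw [hS1c, ← ha]; omega))
          (Nat.ceil_le.1 (by rw [hT1c, hS1c, ← ha]; omega))
        exact (Finset.mem_compl.1 (hT1 he2)) (hST e he (hS1 he1))
  obtain ⟨f, hf, hft⟩ := (Finset.all_card_le_biUnion_card_iff_exists_injective t).1 key
  refine ⟨Equiv.ofBijective f (Finite.injective_iff_bijective.1 hf), fun j => ?_⟩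
  exact (ht j (f j)).1 (hft j)

end Pool.Agent.Helper80.LR
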